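import Mathlib
import Pool.Agent.Y715.T.Ell

/-! # Project CTE, job MWF, part 1: groups, Kummer theory, points -/

set_option autoImplicit false

namespace Pool.Agent.Y710.CTE

open WeierstrassCurve Module Pool.Agent.Y715.T.Ell
open scoped Classical Pointwise

/-! ## groups -/

theorem fin_pre {G : Type*} [AddCommGroup G] (f : G →+ G) (hk : {x | f x = 0}.Finite) {S : Set G}
    (hS : S.Finite) : (f ⁻¹' S).Finite := by
  refine hS.preimage' fun b _ => ?_
  by_cases h : ∃ x₀, f x₀ = b
  · obtain ⟨x₀, hx₀⟩ := h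
    refine (hk.image (fun k => x₀ + k)).subset ?_
    intro x hx
    refine ⟨x - x₀, ?_, by simp⟩
    show f (x - x₀) = 0
    rw [map_sub, hx₀, show f x = b from hx, sub_self]
  · have : f ⁻¹' {b} = ∅ := by
      ext x
      simp only [Set.mem_preimage, Set.mem_singleton_iff, Set.mem_empty_iff_false, iff_false]
      exact fun hx => h ⟨x, hx⟩
    rw [this]
    exact Set.finite_empty

theorem fin_group {G : Type*} [AddCommGroup G] (A s : G →+ G) (hA : ∀ P, A (A P) = -P - A P)
    (hs : ∀ P, s (s (s P)) = P) (hc : ∀ P, s (A P) = A (s P))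
    (hk : {P | P - A P = 0}.Finite)
    (h0 : {P | s P = P}.Finite) (h1 : {P | s P = A P}.Finite)
    (h2 : {P | s P = A (A P)}.Finite) : Finite G := by
  set B : G →+ G := AddMonoidHom.id G - A with hB
  have hBk : {P | B P = 0}.Finite := hk
  have hBB : ∀ P, B (B P) = -((3 : ℕ) • A P) := by
    intro P
    show (P - A P) - A (P - A P) = _
    rw [map_sub, hA]
    abel
  have h3k : {P : G | (3 : ℕ) • P = 0}.Finite := by
    refine (fin_pre B hBk (fin_pre B hBk (Set.finite_singleton 0))).subset ?_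
    intro P hP
    show B (B P) = 0
    rw [hBB, ← map_nsmul, show (3 : ℕ) • P = 0 from hP, map_zero, neg_zero]
  set T : G →+ G := nsmulAddMonoidHom 3 with hT
  have hTk : {P | T P = 0}.Finite := h3k
  have hfin := fin_pre T hTk ((h0.add h1).add h2)
  rw [← Set.finite_univ_iff]
  refine hfin.subset ?_
  intro P _
  show (3 : ℕ) • P ∈ ({P | s P = P} + {P | s P = A P}) + {P | s P = A (A P)}
  refine Set.mem_add.2 ⟨(P + s P + s (s P)) + (P + A (A (s P)) + A (s (s P))), ?_,
    P + A (s P) + A (A (s (s P))), ?_, ?_⟩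
  · refine Set.mem_add.2 ⟨P + s P + s (s P), ?_, P + A (A (s P)) + A (s (s P)), ?_, rfl⟩
    · show s (P + s P + s (s P)) = P + s P + s (s P)
      rw [map_add, map_add, hs]
      abel
    · show s (P + A (A (s P)) + A (s (s P))) = A (P + A (A (s P)) + A (s (s P)))
      simp only [map_add, map_sub, map_neg, hc, hs, hA]
      abel
  · show s (P + A (s P) + A (A (s (s P)))) = A (A (P + A (s P) + A (A (s (s P)))))
    simp only [map_add, map_sub, map_neg, hc, hs, hA]
    abel
  · rw [hA, hA]
    abel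

/-! ## Kummer theory -/

theorem kummer {K F : Type*} [Field K] [Field F] [Algebra K F] (h3 : finrank K F = 3) (I : K)
    (hI : I ^ 2 + I + 1 = 0) (a : K) (t : F) (ht : t ^ 3 = algebraMap K F a)
    (hnc : ∀ b : K, b ^ 3 ≠ a) :
    (∀ x : F, ∃ b0 b1 b2 : K,
      x = algebraMap K F b0 + algebraMap K F b1 * t + algebraMap K F b2 * t ^ 2) ∧
    (∀ b0 b1 b2 : K, algebraMap K F b0 + algebraMap K F b1 * t + algebraMap K F b2 * t ^ 2 = 0 →
      b0 = 0 ∧ b1 = 0 ∧ b2 = 0) ∧
    ∃ σ : F →ₐ[K] F, σ t = algebraMap K F I * t := by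
  have hfd : FiniteDimensional K F := Module.finite_of_finrank_pos (by rw [h3]; norm_num)
  have hirr : Irreducible (Polynomial.X ^ 3 - Polynomial.C a : Polynomial K) :=
    X_pow_sub_C_irreducible_of_prime Nat.prime_three hnc
  have hroot : Polynomial.aeval t (Polynomial.X ^ 3 - Polynomial.C a : Polynomial K) = 0 := by
    simp [ht]
  have hmin : Polynomial.X ^ 3 - Polynomial.C a = minpoly K t :=
    minpoly.eq_of_irreducible_of_monic hirr hroot (Polynomial.monic_X_pow_sub_C a (by norm_num))
  have hdeg : (minpoly K t).natDegree = 3 := by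
    rw [← hmin]
    exact Polynomial.natDegree_X_pow_sub_C
  have hLI : LinearIndependent K fun i : Fin 3 => t ^ (i : ℕ) := by
    have := linearIndependent_pow (K := K) t
    rw [hdeg] at this
    exact this
  have hcard : Fintype.card (Fin 3) = finrank K F := by rw [h3, Fintype.card_fin]
  let b := basisOfLinearIndependentOfCardEqFinrank hLI hcard
  have hb : ∀ i, b i = t ^ (i : ℕ) := fun i => by
    simp [b]
  refine ⟨fun x => ?_, fun b0 b1 b2 h => ?_, ?_⟩
  · refine ⟨b.repr x 0, b.repr x 1, b.repr x 2, ?_⟩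
    conv_lhs => rw [← b.sum_repr x]
    rw [Fin.sum_univ_three, hb, hb, hb]
    simp [Algebra.smul_def]
  · have h' := Fintype.linearIndependent_iff.1 hLI ![b0, b1, b2] (by
      rw [Fin.sum_univ_three]
      simp [Algebra.smul_def]
      linear_combination h)
    exact ⟨h' 0, h' 1, h' 2⟩
  · let pb : PowerBasis K F := ⟨t, 3, b, hb⟩
    have hp : pb.gen = t := rfl
    refine ⟨pb.lift (algebraMap K F I * t) ?_, ?_⟩
    · rw [hp, ← hmin]
      have hI3 : I ^ 3 = 1 := by linear_combination (I - 1) * hI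
      simp only [map_sub, map_pow, Polynomial.aeval_X, Polynomial.aeval_C, mul_pow, ht]
      rw [← map_pow, hI3, map_one, one_mul, sub_self]
    · exact pb.lift_gen _ _

/-! ## the points with given action of `σ` -/

section points

variable {K F : Type} [Field K] [Field F] [CharZero K] [CharZero F] [Algebra K F]

/-- the curve `y² + d y = x³` -/
def Ed {K : Type} [Field K] (d : K) : WeierstrassCurve K := ⟨0, 0, d, 0, 0⟩

omit [CharZero F] [Algebra K F] in
theorem Ed_nons {d : K} (hd : d ≠ 0) {x y : K} (h : y ^ 2 + d * y = x ^ 3) :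
    (Ed d).toAffine.Nonsingular x y := by
  rw [← Affine.equation_iff_nonsingular_of_Δ_ne_zero]
  · rw [Affine.equation_iff]
    show y ^ 2 + 0 * x * y + d * y = x ^ 3 + 0 * x ^ 2 + 0 * x + 0
    linear_combination h
  · have : (Ed d).toAffine.Δ = -27 * d ^ 4 := by
      simp only [Ed, WeierstrassCurve.Δ, WeierstrassCurve.b₂, WeierstrassCurve.b₄,
        WeierstrassCurve.b₆, WeierstrassCurve.b₈]
      ring
    rw [this]
    exact mul_ne_zero (by norm_num) (pow_ne_zero 4 hd)

/-- the coordinates of a point -/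
def co {F : Type} [Field F] {V : WeierstrassCurve F} : V.toAffine.Point → Option (F × F)
  | 0 => none
  | .some x y _ => some (x, y)

theorem co_inj {F : Type} [Field F] {V : WeierstrassCurve F} :
    Function.Injective (co (V := V)) := by
  rintro (_ | ⟨x, y, h⟩) (_ | ⟨x', y', h'⟩) e
  · rfl
  · exact absurd e (by simp [co])
  · exact absurd e (by simp [co])
  · have e' : some (x, y) = some (x', y') := e
    rw [Option.some.injEq, Prod.mk.injEq] at e'
    rw [Affine.Point.some.injEq]
    exact e'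

/-- finiteness of a set of points over `F` coming from points over `K` -/
theorem fin_of {d : K} (hd : d ≠ 0) (hfin : Finite (Ed d).toAffine.Point) (u v : F)
    {V : WeierstrassCurve F} (S : Set V.toAffine.Point)
    (h : ∀ x y (hn : V.toAffine.Nonsingular x y), Affine.Point.some x y hn ∈ S →
      ∃ X Y : K, Y ^ 2 + d * Y = X ^ 3 ∧ x = algebraMap K F X * u ∧ y = algebraMap K F Y * v) :
    S.Finite := by
  let f : (Ed d).toAffine.Point → Option (F × F) := fun P => match P with
    | 0 => none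
    | .some X Y _ => some (algebraMap K F X * u, algebraMap K F Y * v)
  have hf : (Set.range f).Finite := Set.finite_range f
  refine (hf.preimage co_inj.injOn).subset ?_
  rintro (_ | ⟨x, y, hn⟩) hP
  · exact ⟨0, rfl⟩
  · obtain ⟨X, Y, h1, h2, h3⟩ := h x y hn hP
    refine ⟨.some X Y (Ed_nons hd h1), ?_⟩
    show some (algebraMap K F X * u, algebraMap K F Y * v) = some (x, y)
    rw [h2, h3]

theorem fin_points (h3 : finrank K F = 3) (I : K)
    (hI : I ^ 2 + I + 1 = 0) (a : K) (ha : a ≠ 0) (t : F) (ht : t ^ 3 = algebraMap K F a)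
    (hnc : ∀ b : K, b ^ 3 ≠ a) (f0 : Finite (Ed (1 : K)).toAffine.Point)
    (f1 : Finite (Ed a).toAffine.Point) (f2 : Finite (Ed (a ^ 2)).toAffine.Point) :
    Finite (Ed (1 : F)).toAffine.Point := by
  obtain ⟨hbas, hind, σ, hσ⟩ := kummer h3 I hI a t ht hnc
  obtain ⟨J, hJ⟩ : ∃ J : F, J = algebraMap K F I := ⟨_, rfl⟩
  have hJ2 : J ^ 2 + J + 1 = 0 := by
    rw [hJ, ← map_pow, ← map_one (algebraMap K F), ← map_add, ← map_add, hI, map_zero]
  rw [← hJ] at hσ
  have hσJ : σ J = J := by rw [hJ]; exact σ.commutes I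
  have hJ3 : J ^ 3 = 1 := by linear_combination (J - 1) * hJ2
  have hI3 : I ^ 3 = 1 := by linear_combination (I - 1) * hI
  have haF : algebraMap K F a ≠ 0 := (map_ne_zero _).2 ha
  have ht0 : t ≠ 0 := by
    intro h
    rw [h, zero_pow (by norm_num)] at ht
    exact haF ht.symm
  have hI1 : I - 1 ≠ 0 := by
    intro h
    have h3 : (3 : K) = 0 := by linear_combination hI - (I + 2) * h
    exact three_ne_zero h3
  have hI0 : I ≠ 0 := by
    intro h
    rw [h] at hI
    norm_num at hI
  -- the curve as a base change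
  set V : WeierstrassCurve F := Affine.baseChange (Ed (1 : K)).toAffine F with hV
  have hVE : V = Ed (1 : F) := by
    rw [hV]
    ext <;> simp [Ed, Affine.baseChange, Affine.map, WeierstrassCurve.map]
  have hisE : IsE V := by
    rw [hVE]
    exact ⟨rfl, rfl, rfl, rfl, rfl⟩
  rw [← hVE]
  let s : V.toAffine.Point →+ V.toAffine.Point := Affine.Point.map (W' := (Ed (1 : K)).toAffine) σ
  let A : V.toAffine.Point →+ V.toAffine.Point := im hisE hJ2
  have hs_some : ∀ x y (h : V.toAffine.Nonsingular x y), ∃ h' : V.toAffine.Nonsingular (σ x) (σ y),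
      s (.some x y h) = .some (σ x) (σ y) h' := fun x y h => ⟨_, rfl⟩
  have hA_some : ∀ x y (h : V.toAffine.Nonsingular x y), ∃ h' : V.toAffine.Nonsingular (J * x) y,
      A (.some x y h) = .some (J * x) y h' := fun x y h => ⟨_, rfl⟩
  have hσ3 : ∀ x, σ (σ (σ x)) = x := by
    have e1 : σ (σ (σ t)) = t := by
      rw [hσ, map_mul, hσJ, hσ, map_mul, map_mul, hσJ, hσ]
      linear_combination t * hJ3
    intro x
    obtain ⟨b0, b1, b2, rfl⟩ := hbas x
    simp only [map_add, map_mul, map_pow, AlgHom.commutes, e1]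
  -- the eigenspaces
  have eig0 : ∀ x, σ x = x → ∃ b : K, x = algebraMap K F b := by
    intro x hx
    obtain ⟨b0, b1, b2, rfl⟩ := hbas x
    simp only [map_add, map_mul, map_pow, AlgHom.commutes, hσ] at hx
    have h := hind 0 (b1 * (I - 1)) (b2 * (I ^ 2 - 1)) (by
      simp only [map_zero, map_mul, map_sub, map_pow, map_one, ← hJ]
      linear_combination hx)
    have e1 : b1 = 0 := (mul_eq_zero.1 h.2.1).resolve_right hI1
    have e2 : b2 = 0 := by
      refine (mul_eq_zero.1 h.2.2).resolve_right ?_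
      intro h5
      apply hI1
      linear_combination hI3 - I * h5
    refine ⟨b0, ?_⟩
    rw [e1, e2]
    simp
  have eig1 : ∀ x, σ x = J * x → ∃ b : K, x = algebraMap K F b * t := by
    intro x hx
    have h1 : σ (x * t ^ 2) = x * t ^ 2 := by
      rw [map_mul, map_pow, hx, hσ]
      linear_combination x * t ^ 2 * hJ3
    obtain ⟨b, hb⟩ := eig0 _ h1
    refine ⟨b / a, ?_⟩
    rw [map_div₀, ← hb, ← ht]
    field_simp
  have eig2 : ∀ x, σ x = J * (J * x) → ∃ b : K, x = algebraMap K F b * t ^ 2 := by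
    intro x hx
    have h1 : σ (x * t) = x * t := by
      rw [map_mul, hx, hσ]
      linear_combination x * t * hJ3
    obtain ⟨b, hb⟩ := eig0 _ h1
    refine ⟨b / a, ?_⟩
    rw [map_div₀, ← hb, ← ht]
    field_simp
  have heq : ∀ x y, V.toAffine.Nonsingular x y → y ^ 2 + y = x ^ 3 := fun x y h =>
    (hisE.eqn x y).1 h.1
  have hinjK : Function.Injective (algebraMap K F) := (algebraMap K F).injective
  refine fin_group A s (im_im hisE hJ2) ?_ ?_ ?_ ?_ ?_ ?_
  · rintro (_ | ⟨x, y, h⟩)
    · rfl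
    · obtain ⟨h1, e1⟩ := hs_some x y h
      obtain ⟨h2, e2⟩ := hs_some _ _ h1
      obtain ⟨h3, e3⟩ := hs_some _ _ h2
      rw [e1, e2, e3, Affine.Point.some.injEq]
      exact ⟨hσ3 x, hσ3 y⟩
  · rintro (_ | ⟨x, y, h⟩)
    · rfl
    · obtain ⟨h1, e1⟩ := hs_some x y h
      obtain ⟨h2, e2⟩ := hA_some x y h
      obtain ⟨h3, e3⟩ := hs_some _ _ h2
      obtain ⟨h4, e4⟩ := hA_some _ _ h1
      rw [e2, e3, e1, e4, Affine.Point.some.injEq]
      refine ⟨?_, rfl⟩
      rw [map_mul, hσJ]
  · refine Set.Finite.subset (s := {0, T0 hisE, -T0 hisE}) (by simp) ?_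
    intro P hP
    have := ker_im hisE hJ2 (P := P) hP
    simpa using this
  · refine fin_of one_ne_zero f0 1 1 _ ?_
    intro x y hn hP
    obtain ⟨h1, e1⟩ := hs_some x y hn
    have hP' : s (.some x y hn) = .some x y hn := hP
    rw [e1, Affine.Point.some.injEq] at hP'
    obtain ⟨X, hX⟩ := eig0 x hP'.1
    obtain ⟨Y, hY⟩ := eig0 y hP'.2
    refine ⟨X, Y, ?_, by rw [mul_one, hX], by rw [mul_one, hY]⟩
    apply hinjK
    rw [map_add, map_pow, map_pow, map_mul, map_one, ← hX, ← hY, one_mul]
    exact heq x y hn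
  · refine fin_of ha f1 (t / algebraMap K F a) (1 / algebraMap K F a) _ ?_
    intro x y hn hP
    obtain ⟨h1, e1⟩ := hs_some x y hn
    obtain ⟨h2, e2⟩ := hA_some x y hn
    have hP' : s (.some x y hn) = A (.some x y hn) := hP
    rw [e1, e2, Affine.Point.some.injEq] at hP'
    obtain ⟨X, hX⟩ := eig1 x hP'.1
    obtain ⟨Y, hY⟩ := eig0 y hP'.2
    refine ⟨X * a, Y * a, ?_, ?_, ?_⟩
    · have h5 := heq x y hn
      apply hinjK
      simp only [map_add, map_pow, map_mul]
      rw [hX, hY] at h5
      linear_combination (algebraMap K F a) ^ 2 * h5 +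
        (algebraMap K F X) ^ 3 * (algebraMap K F a) ^ 2 * ht
    · rw [hX, map_mul]
      field_simp
    · rw [hY, map_mul]
      field_simp
  · refine fin_of (pow_ne_zero 2 ha) f2 (t ^ 2 / algebraMap K F a ^ 2)
      (1 / algebraMap K F a ^ 2) _ ?_
    intro x y hn hP
    obtain ⟨h1, e1⟩ := hs_some x y hn
    obtain ⟨h2, e2⟩ := hA_some x y hn
    obtain ⟨h3, e3⟩ := hA_some _ _ h2
    have hP' : s (.some x y hn) = A (A (.some x y hn)) := hP
    rw [e1, e2, e3, Affine.Point.some.injEq] at hP'
    obtain ⟨X, hX⟩ := eig2 x hP'.1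
    obtain ⟨Y, hY⟩ := eig0 y hP'.2
    refine ⟨X * a ^ 2, Y * a ^ 2, ?_, ?_, ?_⟩
    · have h5 := heq x y hn
      apply hinjK
      simp only [map_add, map_pow, map_mul]
      rw [hX, hY] at h5
      linear_combination (algebraMap K F a) ^ 4 * h5 +
        (algebraMap K F X) ^ 3 * (algebraMap K F a) ^ 4 * (t ^ 3 + algebraMap K F a) * ht
    · rw [hX, map_mul, map_pow]
      field_simp
    · rw [hY, map_mul, map_pow]
      field_simp

end points

end Pool.Agent.Y710.CTE
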