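import Pool.Agent.Y696.CTE.Stm
import Pool.Agent.Y710.CTE.MwfA

/-! # Project CTE, job MWF: finiteness of the points over `K(∛D)` -/

set_option autoImplicit false

namespace Pool.Agent.Y710.CTE

open NumberField Module
open Pool.Agent.Y692.QS (Ei w)
open Pool.Agent.Y696.CTK
open Pool.Agent.Y696.CTE
open scoped Classical

theorem w_rel : (w : Ei) ^ 2 + w + 1 = 0 := by
  rw [sq, Pool.Agent.Y692.QS.w_sq]
  ring

theorem mwf : S_MWF := by
  intro K F _ _ _ _ _ j D θ hC f0 f1 f2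
  have hI : ((j w : 𝓞 K) : K) ^ 2 + ((j w : 𝓞 K) : K) + 1 = 0 := by
    have h1 : (j w) ^ 2 + j w + 1 = 0 := by
      rw [← map_pow, ← map_add, ← map_one j, ← map_add, w_rel, map_zero]
    have h2 := congrArg (fun x : 𝓞 K => (x : K)) h1
    simpa using h2
  have ha : ((j D : 𝓞 K) : K) ≠ 0 := by
    intro h
    have h1 : (j D : 𝓞 K) = 0 := by exact_mod_cast h
    exact hC.ne0 ((map_eq_zero_iff j j.injective).1 h1)
  have ht : ((θ : 𝓞 F) : F) ^ 3 = algebraMap K F ((j D : 𝓞 K) : K) := by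
    have h2 := congrArg (algebraMap (𝓞 F) F) hC.cube
    rw [map_pow, ← IsScalarTower.algebraMap_apply (𝓞 K) (𝓞 F) F,
      IsScalarTower.algebraMap_apply (𝓞 K) K F] at h2
    exact h2
  have hnc : ∀ b : K, b ^ 3 ≠ ((j D : 𝓞 K) : K) := by
    intro b hb
    have hint : IsIntegral (𝓞 K) b := by
      refine IsIntegral.of_pow (n := 3) (by norm_num) ?_
      rw [hb]
      exact isIntegral_algebraMap
    obtain ⟨c, hc⟩ := IsIntegrallyClosed.algebraMap_eq_of_integral hint
    have h3 : c ^ 3 = j D := by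
      apply FaithfulSMul.algebraMap_injective (𝓞 K) K
      rw [map_pow, hc, hb]
    refine hC.ncube (j.symm c) ?_
    rw [← map_pow, h3, RingEquiv.symm_apply_apply]
  have f2' : Finite (Ed (((j D : 𝓞 K) : K) ^ 2)).toAffine.Point := by
    have e : ((j (D ^ 2) : 𝓞 K) : K) = ((j D : 𝓞 K) : K) ^ 2 := by
      rw [map_pow]
      rfl
    rw [← e]
    exact f2
  exact fin_points hC.deg _ hI _ ha _ ht hnc f0 f1 f2'

end Pool.Agent.Y710.CTE
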